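import Pool.Agent.Helper77.OF4.St

/-!
# Project OF4, module FT: folding without creating triangles
-/

set_option autoImplicit false

namespace Pool.Agent.Helper16.OF4.FT

open Equiv Equiv.Perm Pool.Agent.Helper35.PM Pool.Agent.Helper77.HY Pool.Agent.Helper77.OF4

section abs

variable {V : Type} (A : V → V → Prop) (hs : ∀ a b, A a b → A b a) (u u' z : V)
  (h1 : A u z) (h2 : A z u') (hl : ∀ a, ¬ A a a) (ht : ∀ a b c, A a b → A b c → ¬ A c a)
  (hw : ∀ a b, A u a → A a b → ¬ A b u')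

include hs h1 h2 ht in
lemma no_edge : ¬ A u u' ∧ ¬ A u' u := by
  have h : ¬ A u' u := fun h => ht u z u' h1 h2 h
  exact ⟨fun h' => h (hs _ _ h'), h⟩

include hs h1 h2 hl ht in
lemma no_loop (a b : V) (e : A a b)
    (r : b = a ∨ ((b = u ∨ b = u') ∧ (a = u ∨ a = u'))) : False := by
  obtain ⟨n1, n2⟩ := no_edge A hs u u' z h1 h2 ht
  rcases r with rfl | ⟨rfl | rfl, rfl | rfl⟩
  · exact hl _ e
  · exact hl _ e
  · exact n2 e
  · exact n1 e
  · exact hl _ e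

include hs h1 h2 hl ht hw in
lemma no_tri (a a' b b' c c' : V) (e1 : A a a') (e2 : A b b') (e3 : A c c')
    (r1 : a' = b ∨ ((a' = u ∨ a' = u') ∧ (b = u ∨ b = u')))
    (r2 : b' = c ∨ ((b' = u ∨ b' = u') ∧ (c = u ∨ c = u')))
    (r3 : c' = a ∨ ((c' = u ∨ c' = u') ∧ (a = u ∨ a = u'))) : False := by
  obtain ⟨n1, n2⟩ := no_edge A hs u u' z h1 h2 ht
  have hw' : ∀ a b, A u' a → A a b → ¬ A b u := fun a b h3 h4 h5 =>
    hw b a (hs _ _ h5) (hs _ _ h4) (hs _ _ h3)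
  have k1 : ∀ {x y : V}, A x y → (x = u ∨ x = u') → (y = u ∨ y = u') → False := by
    intro x y h hx hy
    rcases hx with rfl | rfl <;> rcases hy with rfl | rfl
    · exact hl _ h
    · exact n1 h
    · exact n2 h
    · exact hl _ h
  have k2 : ∀ {x y z w : V}, A x y → A y z → A z w → (x = u ∨ x = u') → (w = u ∨ w = u') →
      False := by
    intro x y z w h3 h4 h5 hx hw1
    rcases hx with rfl | rfl <;> rcases hw1 with rfl | rfl
    · exact ht _ _ _ h3 h4 h5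
    · exact hw _ _ h3 h4 h5
    · exact hw' _ _ h3 h4 h5
    · exact ht _ _ _ h3 h4 h5
  rcases r1 with rfl | ⟨p1, q1⟩
  · rcases r2 with rfl | ⟨p2, q2⟩
    · rcases r3 with rfl | ⟨p3, q3⟩
      · exact ht _ _ _ e1 e2 e3
      · exact k2 e1 e2 e3 q3 p3
    · rcases r3 with rfl | ⟨p3, q3⟩
      · exact k2 e3 e1 e2 q2 p2
      · exact k1 e3 q2 p3
  · rcases r2 with rfl | ⟨p2, q2⟩
    · rcases r3 with rfl | ⟨p3, q3⟩
      · exact k2 e2 e3 e1 q1 p1
      · exact k1 e1 q3 p1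
    · exact k1 e2 q1 p2

end abs

theorem main : StFt := by
  intro V D _ _ _ M d h hOG hWk
  have hz : M.t (M.φ d) = M.t (M.ι d) := t_φ M d
  have hz2 : M.t (M.ι (M.φ d)) = M.t (M.φ (M.φ d)) := (t_φ M (M.φ d)).symm
  set A : V → V → Prop := fun a b => ∃ e, M.t e = a ∧ M.t (M.ι e) = b with hA
  have hs : ∀ a b, A a b → A b a := by
    rintro a b ⟨e, h1, h2⟩
    exact ⟨M.ι e, h2, by rw [M.inv]; exact h1⟩
  have hl : ∀ a, ¬ A a a := by
    rintro a ⟨e, h1, h2⟩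
    exact hOG.1 e (h2.trans h1.symm)
  have ht : ∀ a b c, A a b → A b c → ¬ A c a := by
    rintro a b c ⟨e, h1, h2⟩ ⟨f, h3, h4⟩ ⟨g, h5, h6⟩
    exact hOG.2 e f g (h2.trans h3.symm) (h4.trans h5.symm) (h6.trans h1.symm)
  have hw : ∀ a b, A (M.t d) a → A a b → ¬ A b (M.t (M.φ (M.φ d))) := by
    rintro a b h1 h2 h3
    apply hWk
    refine ⟨fun i => if i = 0 then M.t d else if i = 1 then a else if i = 2 then b else
      M.t (M.φ (M.φ d)), by simp, by simp, ?_⟩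
    intro i hi
    have : i = 0 ∨ i = 1 ∨ i = 2 := by omega
    rcases this with rfl | rfl | rfl
    · simpa using h1
    · simpa using h2
    · simpa using h3
  have h1 : A (M.t d) (M.t (M.ι d)) := ⟨d, rfl, rfl⟩
  have h2 : A (M.t (M.ι d)) (M.t (M.φ (M.φ d))) := ⟨M.φ d, hz, hz2⟩
  constructor
  · intro e he
    rw [fold_ι, fold_t, fold_t, pr_iff] at he
    exact no_loop A hs _ _ _ h1 h2 hl ht _ _ ⟨e, rfl, rfl⟩ he
  · intro e f g he hf hg
    rw [fold_ι, fold_t, fold_t, pr_iff] at he hf hg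
    exact no_tri A hs _ _ _ h1 h2 hl ht hw _ _ _ _ _ _ ⟨e, rfl, rfl⟩ ⟨f, rfl, rfl⟩ ⟨g, rfl, rfl⟩
      he hf hg

end Pool.Agent.Helper16.OF4.FT
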